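import Pool.Agent.Helper82.DG.Base
import Pool.Agent.Helper18.RAC.Fan1

/-!
# Cells with covered sides

`Cell H X Y Z x1 x2 y1 y2`: a rectangle each side of which is contained in one edge whose ends
lie in `Z`; the ends are allowed to be at the corners of the rectangle.
-/

set_option autoImplicit false

namespace Pool.Agent.Helper18.DG3

open Pool.Agent.Helper18.RAC

variable {V : Type*}

/-- an open rectangle whose sides are contained in edges with ends in `Z` -/
structure Cell (H : SimpleGraph V) (X Y : V → ℝ) (Z : Set V) (x1 x2 y1 y2 : ℝ) : Prop where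
  hx : x1 < x2
  hy : y1 < y2
  l : ∃ p p', H.Adj p p' ∧ p ∈ Z ∧ p' ∈ Z ∧ X p = x1 ∧ X p' = x1 ∧ Y p ≤ y1 ∧ y2 ≤ Y p'
  r : ∃ p p', H.Adj p p' ∧ p ∈ Z ∧ p' ∈ Z ∧ X p = x2 ∧ X p' = x2 ∧ Y p ≤ y1 ∧ y2 ≤ Y p'
  b : ∃ p p', H.Adj p p' ∧ p ∈ Z ∧ p' ∈ Z ∧ Y p = y1 ∧ Y p' = y1 ∧ X p ≤ x1 ∧ x2 ≤ X p'
  t : ∃ p p', H.Adj p p' ∧ p ∈ Z ∧ p' ∈ Z ∧ Y p = y2 ∧ Y p' = y2 ∧ X p ≤ x1 ∧ x2 ≤ X p'

section

variable {H : SimpleGraph V} {X Y : V → ℝ} {Z : Set V} {E F x1 x2 y1 y2 : ℝ} {p p' : V}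

/-- the drawing with the first coordinate negated -/
theorem ADraw.negX (h : ADraw H X Y E F) : ADraw H (fun v => -X v) Y E F where
  E_pos := h.E_pos
  F_pos := h.F_pos
  vtx := fun u v w huv hu hv t h0 h1 h2 h3 =>
    h.vtx u v w huv hu hv t h0 h1 (by linarith) h3
  crs := fun u v x y huv hxy hne s t h1 h2 h3 h4 h5 h6 => by
    have := h.crs u v x y huv hxy hne s t h1 h2 h3 h4 (by linarith) h6
    linarith

/-- the drawing with the second coordinate negated -/
theorem ADraw.negY (h : ADraw H X Y E F) : ADraw H X (fun v => -Y v) E F :=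
  (ADraw.negX h.swap).swap

theorem Cell.negX (h : Cell H X Y Z x1 x2 y1 y2) :
    Cell H (fun v => -X v) Y Z (-x2) (-x1) y1 y2 where
  hx := by have := h.hx; linarith
  hy := h.hy
  l := by
    obtain ⟨p, p', h1, z, z', h2, h3, h4, h5⟩ := h.r
    exact ⟨p, p', h1, z, z', by rw [h2], by rw [h3], h4, h5⟩
  r := by
    obtain ⟨p, p', h1, z, z', h2, h3, h4, h5⟩ := h.l
    exact ⟨p, p', h1, z, z', by rw [h2], by rw [h3], h4, h5⟩
  b := by
    obtain ⟨p, p', h1, z, z', h2, h3, h4, h5⟩ := h.b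
    exact ⟨p', p, h1.symm, z', z, h3, h2, by linarith, by linarith⟩
  t := by
    obtain ⟨p, p', h1, z, z', h2, h3, h4, h5⟩ := h.t
    exact ⟨p', p, h1.symm, z', z, h3, h2, by linarith, by linarith⟩

theorem Cell.swap (h : Cell H X Y Z x1 x2 y1 y2) : Cell H Y X Z y1 y2 x1 x2 where
  hx := h.hy
  hy := h.hx
  l := h.b
  r := h.t
  b := h.l
  t := h.r

theorem Cell.negY (h : Cell H X Y Z x1 x2 y1 y2) :
    Cell H X (fun v => -Y v) Z x1 x2 (-y2) (-y1) :=
  h.swap.negX.swap

/-- An edge which goes up and to the right leaves the cell through the side `X = x2` only at the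
corner `(x2, y2)`, and then it ends there. -/
theorem Cell.no_exit (hd : ADraw H X Y E F) (hr : Cell H X Y Z x1 x2 y1 y2) (hp : H.Adj p p')
    (hX : X p < X p') (hY : Y p < Y p') {τ : ℝ} (hτ0 : 0 < τ) (hτ1 : τ ≤ 1)
    (h1 : (1 - τ) * X p + τ * X p' = x2) (h2 : y1 < (1 - τ) * Y p + τ * Y p')
    (h3 : (1 - τ) * Y p + τ * Y p' ≤ y2) : p' ∈ Z ∧ X p' = x2 ∧ Y p' = y2 := by
  obtain ⟨q, q', hq, zq, zq', hqx, hqx', hqy, hqy'⟩ := hr.r
  have hyy := hr.hy
  have hden : 0 < Y q' - Y q := by linarith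
  set y0 : ℝ := (1 - τ) * Y p + τ * Y p' with hy0
  rcases hτ1.eq_or_lt with heq | hlt
  · -- the vertex `p'` lies on the side
    have hY' : y0 = Y p' := by rw [hy0, heq]; ring
    have hX' : X p' = x2 := by rw [← h1, heq]; ring
    by_cases hpq : p' = q'
    · subst hpq
      exact ⟨zq', hX', le_antisymm (by linarith) hqy'⟩
    · exfalso
      refine hd.vtx q q' p' hq ?_ hpq ((y0 - Y q) / (Y q' - Y q)) (div_nonneg (by linarith) hden.le)
        ((div_le_one hden).2 (by linarith)) ?_ ?_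
      · rintro rfl
        linarith
      · rw [hqx, hqx', hX']
        ring
      · rw [← hY']
        field_simp
        ring
  · exfalso
    rcases (show y0 ≤ Y q' by linarith).eq_or_lt with he | hl
    · refine hd.vtx p p' q' hp ?_ ?_ τ hτ0.le hτ1 ?_ ?_
      · rintro rfl
        nlinarith
      · rintro rfl
        nlinarith
      · rw [hqx', h1]
      · rw [← he]
    · have key := hd.crs p p' q q' hp hq (by
        intro h4
        rw [Sym2.eq_iff] at h4
        rcases h4 with ⟨h4, h5⟩ | ⟨h4, h5⟩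
        · rw [h4, h5, hqx, hqx'] at hX
          exact lt_irrefl _ hX
        · rw [h4, h5, hqx, hqx'] at hX
          exact lt_irrefl _ hX) τ ((y0 - Y q) / (Y q' - Y q)) hτ0 hlt
        (div_pos (by linarith) hden) ((div_lt_one hden).2 (by linarith)) (by
          rw [h1, hqx, hqx']
          ring) (by
          rw [← hy0]
          field_simp
          ring)
      rw [hqx, hqx', sub_self, mul_zero, mul_zero, zero_add] at key
      have h5 : 0 < F * ((Y p' - Y p) * (Y q' - Y q)) :=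
        mul_pos hd.F_pos (mul_pos (by linarith) hden)
      linarith

/-- An edge going up and to the right, with a point in the half open cell. -/
theorem Cell.through_pos (hd : ADraw H X Y E F) (hr : Cell H X Y Z x1 x2 y1 y2)
    (hp : H.Adj p p') (hX : X p < X p') (hY : Y p < Y p') {s : ℝ}
    (hs0 : 0 ≤ s) (hs1 : s < 1) (h1 : x1 ≤ (1 - s) * X p + s * X p')
    (h2 : (1 - s) * X p + s * X p' < x2) (h3 : y1 ≤ (1 - s) * Y p + s * Y p')
    (h4 : (1 - s) * Y p + s * Y p' < y2) :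
    (x1 < X p' ∧ X p' < x2 ∧ y1 < Y p' ∧ Y p' < y2) ∨ (p' ∈ Z ∧ X p' = x2 ∧ Y p' = y2) := by
  have hX1 : (1 - s) * X p + s * X p' < X p' := by nlinarith
  have hY1 : (1 - s) * Y p + s * Y p' < Y p' := by nlinarith
  have hdx : 0 < X p' - X p := by linarith
  have hdy : 0 < Y p' - Y p := by linarith
  set a : ℝ := (x2 - X p) / (X p' - X p) with ha
  set c : ℝ := (y2 - Y p) / (Y p' - Y p) with hc
  have hax : (1 - a) * X p + a * X p' = x2 := by
    rw [ha]
    field_simp
    ring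
  have hcy : (1 - c) * Y p + c * Y p' = y2 := by
    rw [hc]
    field_simp
    ring
  have hsa : s < a := by
    rw [ha, lt_div_iff₀ hdx]
    linarith
  have hsc : s < c := by
    rw [hc, lt_div_iff₀ hdy]
    linarith
  by_cases hin : X p' < x2 ∧ Y p' < y2
  · exact Or.inl ⟨by linarith, hin.1, by linarith, hin.2⟩
  · right
    have nox : x2 ≤ X p' → a ≤ c → p' ∈ Z ∧ X p' = x2 ∧ Y p' = y2 := by
      intro h5 h6
      have ha1 : a ≤ 1 := by
        rw [ha, div_le_one hdx]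
        linarith
      refine hr.no_exit hd hp hX hY (lt_of_le_of_lt hs0 hsa) ha1 hax ?_ ?_
      · nlinarith
      · nlinarith
    have noy : y2 ≤ Y p' → c ≤ a → p' ∈ Z ∧ X p' = x2 ∧ Y p' = y2 := by
      intro h5 h6
      have hc1 : c ≤ 1 := by
        rw [hc, div_le_one hdy]
        linarith
      obtain ⟨g1, g2, g3⟩ := hr.swap.no_exit hd.swap hp hY hX (lt_of_le_of_lt hs0 hsc) hc1 hcy
        (by nlinarith) (by nlinarith)
      exact ⟨g1, g3, g2⟩
    rcases le_total a c with h6 | h6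
    · by_cases h5 : x2 ≤ X p'
      · exact nox h5 h6
      · rw [not_le] at h5
        have h7 : y2 ≤ Y p' := by
          by_contra h7
          exact hin ⟨h5, lt_of_not_ge h7⟩
        exfalso
        have hc1 : c ≤ 1 := by
          rw [hc, div_le_one hdy]
          linarith
        have ha1 : a ≤ 1 := h6.trans hc1
        rw [ha, div_le_one hdx] at ha1
        linarith
    · by_cases h5 : y2 ≤ Y p'
      · exact noy h5 h6
      · rw [not_le] at h5
        have h7 : x2 ≤ X p' := by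
          by_contra h7
          exact hin ⟨lt_of_not_ge h7, h5⟩
        exfalso
        have ha1 : a ≤ 1 := by
          rw [ha, div_le_one hdx]
          linarith
        have hc1 : c ≤ 1 := h6.trans ha1
        rw [hc, div_le_one hdy] at hc1
        linarith

/-- An edge which meets the open cell ends in it, or in a vertex of `Z` at a corner, or it is
parallel to an axis. -/
theorem Cell.through (hd : ADraw H X Y E F) (hr : Cell H X Y Z x1 x2 y1 y2)
    (hp : H.Adj p p') {s : ℝ} (hs0 : 0 ≤ s) (hs1 : s < 1) (h1 : x1 < (1 - s) * X p + s * X p')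
    (h2 : (1 - s) * X p + s * X p' < x2) (h3 : y1 < (1 - s) * Y p + s * Y p')
    (h4 : (1 - s) * Y p + s * Y p' < y2) :
    (x1 < X p' ∧ X p' < x2 ∧ y1 < Y p' ∧ Y p' < y2) ∨
      (p' ∈ Z ∧ (X p' = x1 ∨ X p' = x2) ∧ (Y p' = y1 ∨ Y p' = y2)) ∨
      X p' = X p ∨ Y p' = Y p := by
  rcases lt_trichotomy (X p) (X p') with hX | hX | hX
  · rcases lt_trichotomy (Y p) (Y p') with hY | hY | hY
    · rcases hr.through_pos hd hp hX hY hs0 hs1 h1.le h2 h3.le h4 with h | ⟨h5, h6, h7⟩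
      · exact Or.inl h
      · exact Or.inr (Or.inl ⟨h5, Or.inr h6, Or.inr h7⟩)
    · exact Or.inr (Or.inr (Or.inr hY.symm))
    · rcases hr.negY.through_pos (ADraw.negY hd) hp (s := s) hX (by linarith) hs0 hs1 h1.le h2
        (by linarith) (by linarith) with ⟨g1, g2, g3, g4⟩ | ⟨h5, h6, h7⟩
      · exact Or.inl ⟨g1, g2, by linarith, by linarith⟩
      · exact Or.inr (Or.inl ⟨h5, Or.inr h6, Or.inl (by linarith)⟩)
  · exact Or.inr (Or.inr (Or.inl hX.symm))
  · rcases lt_trichotomy (Y p) (Y p') with hY | hY | hY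
    · rcases hr.negX.through_pos (ADraw.negX hd) hp (s := s) (by linarith) hY hs0 hs1
        (by linarith) (by linarith) h3.le h4 with ⟨g1, g2, g3, g4⟩ | ⟨h5, h6, h7⟩
      · exact Or.inl ⟨by linarith, by linarith, g3, g4⟩
      · exact Or.inr (Or.inl ⟨h5, Or.inl (by linarith), Or.inr h7⟩)
    · exact Or.inr (Or.inr (Or.inr hY.symm))
    · rcases hr.negX.negY.through_pos (ADraw.negY (ADraw.negX hd)) hp (s := s) (by linarith)
        (by linarith) hs0 hs1 (by linarith) (by linarith) (by linarith) (by linarith) with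
        ⟨g1, g2, g3, g4⟩ | ⟨h5, h6, h7⟩
      · exact Or.inl ⟨by linarith, by linarith, by linarith, by linarith⟩
      · exact Or.inr (Or.inl ⟨h5, Or.inl (by linarith), Or.inl (by linarith)⟩)

/-- An edge which starts at the lower left corner and goes up and to the right. -/
theorem Cell.from_ll (hd : ADraw H X Y E F) (hr : Cell H X Y Z x1 x2 y1 y2) (hp : H.Adj p p')
    (hx : X p = x1) (hy : Y p = y1) (hX : X p < X p') (hY : Y p < Y p') :
    (x1 < X p' ∧ X p' < x2 ∧ y1 < Y p' ∧ Y p' < y2) ∨ (p' ∈ Z ∧ X p' = x2 ∧ Y p' = y2) := by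
  have a1 := hr.hx
  have a2 := hr.hy
  refine hr.through_pos hd hp hX hY le_rfl one_pos ?_ ?_ ?_ ?_ <;> linarith

/-- An edge which starts at the lower right corner and goes up and to the left. -/
theorem Cell.from_lr (hd : ADraw H X Y E F) (hr : Cell H X Y Z x1 x2 y1 y2) (hp : H.Adj p p')
    (hx : X p = x2) (hy : Y p = y1) (hX : X p' < X p) (hY : Y p < Y p') :
    (x1 < X p' ∧ X p' < x2 ∧ y1 < Y p' ∧ Y p' < y2) ∨ (p' ∈ Z ∧ X p' = x1 ∧ Y p' = y2) := by
  rcases hr.negX.from_ll (ADraw.negX hd) hp (by rw [hx]) hy (by linarith) hY with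
    ⟨g1, g2, g3, g4⟩ | ⟨h5, h6, h7⟩
  · exact Or.inl ⟨by linarith, by linarith, g3, g4⟩
  · exact Or.inr ⟨h5, by linarith, h7⟩

/-- An edge which starts at the upper left corner and goes down and to the right. -/
theorem Cell.from_ul (hd : ADraw H X Y E F) (hr : Cell H X Y Z x1 x2 y1 y2) (hp : H.Adj p p')
    (hx : X p = x1) (hy : Y p = y2) (hX : X p < X p') (hY : Y p' < Y p) :
    (x1 < X p' ∧ X p' < x2 ∧ y1 < Y p' ∧ Y p' < y2) ∨ (p' ∈ Z ∧ X p' = x2 ∧ Y p' = y1) := by
  rcases hr.negY.from_ll (ADraw.negY hd) hp hx (by rw [hy]) hX (by linarith) with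
    ⟨g1, g2, g3, g4⟩ | ⟨h5, h6, h7⟩
  · exact Or.inl ⟨g1, g2, by linarith, by linarith⟩
  · exact Or.inr ⟨h5, h6, by linarith⟩

/-- An edge which starts at the upper right corner and goes down and to the left. -/
theorem Cell.from_ur (hd : ADraw H X Y E F) (hr : Cell H X Y Z x1 x2 y1 y2) (hp : H.Adj p p')
    (hx : X p = x2) (hy : Y p = y2) (hX : X p' < X p) (hY : Y p' < Y p) :
    (x1 < X p' ∧ X p' < x2 ∧ y1 < Y p' ∧ Y p' < y2) ∨ (p' ∈ Z ∧ X p' = x1 ∧ Y p' = y1) := by
  rcases hr.negX.from_ul (ADraw.negX hd) hp (by rw [hx]) hy (by linarith) hY with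
    ⟨g1, g2, g3, g4⟩ | ⟨h5, h6, h7⟩
  · exact Or.inl ⟨by linarith, by linarith, g3, g4⟩
  · exact Or.inr ⟨h5, by linarith, h7⟩

/-- A vertex at the lower left corner is joined to a vertex of `Z` straight above it. -/
theorem Cell.up_edge (hd : ADraw H X Y E F) (hr : Cell H X Y Z x1 x2 y1 y2)
    (hx : X p = x1) (hy : Y p = y1) : ∃ q, H.Adj p q ∧ p ∈ Z ∧ q ∈ Z ∧ X q = x1 ∧ y2 ≤ Y q := by
  obtain ⟨q, q', hq, zq, zq', hqx, hqx', hqy, hqy'⟩ := hr.l
  have hyy := hr.hy
  have hden : 0 < Y q' - Y q := by linarith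
  have hne : p ≠ q' := by
    rintro rfl
    linarith
  by_cases h : p = q
  · subst h
    exact ⟨q', hq, zq, zq', hqx', hqy'⟩
  · exfalso
    refine hd.vtx q q' p hq h hne ((Y p - Y q) / (Y q' - Y q)) (div_nonneg (by linarith) hden.le)
      ((div_le_one hden).2 (by linarith)) ?_ ?_
    · rw [hqx, hqx', hx]
      ring
    · field_simp
      ring

/-- A neighbour straight above the lower left corner belongs to `Z`. -/
theorem Cell.up_mem (hd : ADraw H X Y E F) (hr : Cell H X Y Z x1 x2 y1 y2)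
    (hp : H.Adj p p') (hx : X p = x1) (hy : Y p = y1) (hX : X p' = X p) (hY : Y p < Y p') :
    p' ∈ Z := by
  obtain ⟨q, h1, -, zq, h2, h3⟩ := hr.up_edge hd hx hy
  have hyy := hr.hy
  have hden : 0 < Y q - Y p := by linarith
  have h4 : p' = q := hd.same_dir hp h1 (s := (Y p' - Y p) / (Y q - Y p))
    (div_pos (by linarith) hden) (by rw [hX, h2, hx]; ring) (by field_simp)
  rw [h4]
  exact zq

theorem Cell.right_mem (hd : ADraw H X Y E F) (hr : Cell H X Y Z x1 x2 y1 y2)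
    (hp : H.Adj p p') (hx : X p = x1) (hy : Y p = y1) (hY : Y p' = Y p) (hX : X p < X p') :
    p' ∈ Z :=
  hr.swap.up_mem hd.swap hp hy hx hY hX

theorem Cell.left_mem (hd : ADraw H X Y E F) (hr : Cell H X Y Z x1 x2 y1 y2)
    (hp : H.Adj p p') (hx : X p = x2) (hy : Y p = y2) (hY : Y p' = Y p) (hX : X p' < X p) :
    p' ∈ Z :=
  hr.negX.negY.right_mem (ADraw.negY (ADraw.negX hd)) hp (by rw [hx]) (by rw [hy]) (by rw [hY])
    (by linarith)

theorem Cell.down_mem (hd : ADraw H X Y E F) (hr : Cell H X Y Z x1 x2 y1 y2)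
    (hp : H.Adj p p') (hx : X p = x2) (hy : Y p = y2) (hX : X p' = X p) (hY : Y p' < Y p) :
    p' ∈ Z :=
  hr.swap.left_mem hd.swap hp hy hx hX hY

/-- A neighbour outside `Z` of a vertex at the common corner of four cells lies in one of these
cells. -/
theorem star {x0 y0 : ℝ} (hd : ADraw H X Y E F) (c00 : Cell H X Y Z x0 x1 y0 y1)
    (c10 : Cell H X Y Z x1 x2 y0 y1) (c01 : Cell H X Y Z x0 x1 y1 y2)
    (c11 : Cell H X Y Z x1 x2 y1 y2) (hx : X p = x1) (hy : Y p = y1) (hp : H.Adj p p')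
    (hZ : p' ∉ Z) :
    ((x0 < X p' ∧ X p' < x1) ∨ (x1 < X p' ∧ X p' < x2)) ∧
      ((y0 < Y p' ∧ Y p' < y1) ∨ (y1 < Y p' ∧ Y p' < y2)) := by
  rcases lt_trichotomy (X p) (X p') with hX | hX | hX
  · rcases lt_trichotomy (Y p) (Y p') with hY | hY | hY
    · rcases c11.from_ll hd hp hx hy hX hY with ⟨g1, g2, g3, g4⟩ | h
      · exact ⟨Or.inr ⟨g1, g2⟩, Or.inr ⟨g3, g4⟩⟩
      · exact absurd h.1 hZ
    · exact absurd (c11.right_mem hd hp hx hy hY.symm hX) hZ
    · rcases c10.from_ul hd hp hx hy hX hY with ⟨g1, g2, g3, g4⟩ | h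
      · exact ⟨Or.inr ⟨g1, g2⟩, Or.inl ⟨g3, g4⟩⟩
      · exact absurd h.1 hZ
  · rcases lt_trichotomy (Y p) (Y p') with hY | hY | hY
    · exact absurd (c11.up_mem hd hp hx hy hX.symm hY) hZ
    · exfalso
      obtain ⟨q, h1, -, -, h2, h3⟩ := c11.up_edge hd hx hy
      have hyy := c11.hy
      refine hd.vtx p q p' h1 hp.ne' ?_ 0 le_rfl zero_le_one ?_ ?_
      · rintro rfl
        linarith
      · rw [← hX]
        ring
      · rw [← hY]
        ring
    · exact absurd (c00.down_mem hd hp hx hy hX.symm hY) hZ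
  · rcases lt_trichotomy (Y p) (Y p') with hY | hY | hY
    · rcases c01.from_lr hd hp hx hy hX hY with ⟨g1, g2, g3, g4⟩ | h
      · exact ⟨Or.inl ⟨g1, g2⟩, Or.inr ⟨g3, g4⟩⟩
      · exact absurd h.1 hZ
    · exact absurd (c00.left_mem hd hp hx hy hY.symm hX) hZ
    · rcases c00.from_ur hd hp hx hy hX hY with ⟨g1, g2, g3, g4⟩ | h
      · exact ⟨Or.inl ⟨g1, g2⟩, Or.inl ⟨g3, g4⟩⟩
      · exact absurd h.1 hZ

end

end Pool.Agent.Helper18.DG3
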