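import Pool.Agent.Helper18.DG3.Cell
import Pool.Agent.Helper58.DG3.Net

/-!
# Start and end cells

A neighbour of a net vertex which does not belong to the frame or to the net lies in one of the
four open cells around it.
-/

set_option autoImplicit false

namespace Pool.Agent.Helper18.DG3

open Pool.Agent.Helper18.RAC
open Pool.Agent.Helper58.DG3

variable {V : Type*}

/-- the vertices of the frame and of the net -/
def Zn (κ : GX → V) (π : Par) : Set V := {v | ∃ x : GN, x.ok π ∧ x.nt ∧ v = κ (.v x)}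

/-- the pieces of the lines are covered by edges with ends in `Z` -/
structure Cov (H : SimpleGraph V) (X Y : V → ℝ) (Z : Set V) (gx gy : ℤ → ℝ) (N : ℤ) : Prop where
  hx : ∀ i j : ℤ, 0 ≤ i → 0 ≤ j → i + j ≤ N → gx i < gx (i + 1)
  hy : ∀ i j : ℤ, 0 ≤ i → 0 ≤ j → i + j ≤ N → gy j < gy (j + 1)
  row : ∀ x y : ℤ, 0 ≤ x → 0 ≤ y → x + y ≤ N →
    ∃ p p', H.Adj p p' ∧ p ∈ Z ∧ p' ∈ Z ∧ Y p = gy y ∧ Y p' = gy y ∧ X p ≤ gx x ∧ gx (x + 1) ≤ X p'
  col : ∀ x y : ℤ, 0 ≤ x → 0 ≤ y → x + y ≤ N →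
    ∃ p p', H.Adj p p' ∧ p ∈ Z ∧ p' ∈ Z ∧ X p = gx x ∧ X p' = gx x ∧ Y p ≤ gy y ∧ gy (y + 1) ≤ Y p'

section

variable {H : SimpleGraph V} {X Y : V → ℝ} {Z : Set V} {gx gy : ℤ → ℝ} {N : ℤ} {E F : ℝ}
  {p v : V}

theorem Cov.cell (h : Cov H X Y Z gx gy N) {i j : ℤ} (hi : 0 ≤ i) (hj : 0 ≤ j)
    (hN : i + j + 1 ≤ N) : Cell H X Y Z (gx i) (gx (i + 1)) (gy j) (gy (j + 1)) where
  hx := h.hx i j hi hj (by omega)
  hy := h.hy i j hi hj (by omega)
  l := h.col i j hi hj (by omega)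
  r := h.col (i + 1) j (by omega) hj (by omega)
  b := h.row i j hi hj (by omega)
  t := h.row i (j + 1) hi (by omega) (by omega)

/-- a neighbour outside `Z` of a vertex in the grid point `(i, j)` -/
theorem Cov.star (h : Cov H X Y Z gx gy N) (hd : ADraw H X Y E F) {i j : ℤ} (hi : 1 ≤ i)
    (hj : 1 ≤ j) (hN : i + j + 1 ≤ N) (hX : X p = gx i) (hY : Y p = gy j) (hp : H.Adj p v)
    (hv : v ∉ Z) : ∃ i' j' : ℤ, (i' = i - 1 ∨ i' = i) ∧ (j' = j - 1 ∨ j' = j) ∧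
      gx i' < X v ∧ X v < gx (i' + 1) ∧ gy j' < Y v ∧ Y v < gy (j' + 1) := by
  have c00 := h.cell (i := i - 1) (j := j - 1) (by omega) (by omega) (by omega)
  have c10 := h.cell (i := i) (j := j - 1) (by omega) (by omega) (by omega)
  have c01 := h.cell (i := i - 1) (j := j) (by omega) (by omega) (by omega)
  have c11 := h.cell (i := i) (j := j) (by omega) (by omega) (by omega)
  rw [sub_add_cancel] at c00 c10 c01
  rw [sub_add_cancel] at c00
  obtain ⟨h1 | h1, h2 | h2⟩ := DG3.star hd c00 c10 c01 c11 hX hY hp hv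
  · exact ⟨i - 1, j - 1, Or.inl rfl, Or.inl rfl, h1.1, by rw [sub_add_cancel]; exact h1.2,
      h2.1, by rw [sub_add_cancel]; exact h2.2⟩
  · exact ⟨i - 1, j, Or.inl rfl, Or.inr rfl, h1.1, by rw [sub_add_cancel]; exact h1.2,
      h2.1, h2.2⟩
  · exact ⟨i, j - 1, Or.inr rfl, Or.inl rfl, h1.1, h1.2,
      h2.1, by rw [sub_add_cancel]; exact h2.2⟩
  · exact ⟨i, j, Or.inr rfl, Or.inr rfl, h1.1, h1.2, h2.1, h2.2⟩

end

end Pool.Agent.Helper18.DG3
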