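import Pool.Agent.Helper18.DG3.Star
import Pool.Agent.Helper68.RAC1.Par
import Pool.Agent.Helper49.DG3.TCell

/-!
# Start and end cells of the threads

`Net.cov`: the cells of the net.  `start_cell`: the first vertex of the thread `(k, x, y)` lies in
one of the four cells around the point `(x + 1, y + 1)`.  `end_cell`: the last vertex lies in one
of the four cells around the point `p_l`.
-/

set_option autoImplicit false

namespace Pool.Agent.Helper18.DG3

open Pool.Agent.Helper18.RAC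
open Pool.Agent.Helper58.DG3

variable {V : Type*} {H : SimpleGraph V} {X Y : V → ℝ} {E F : ℝ} {κ : GX → V} {π : Par}

theorem R_pos (π : Par) : 0 < π.R := Nat.fib_pos.2 (by omega)

/-- the net covers the pieces of its lines -/
theorem cov (h : Net H X Y E F κ π) :
    Cov H X Y (ZN κ π) (gX X κ) (gY Y κ) ((π.M : ℤ) - π.R - 4) where
  hx := fun i j hi hj hN => h.gx_lt i (i + 1) hi (by omega) (by
    have := R_pos π
    omega)
  hy := fun i j hi hj hN => h.gy_lt j (j + 1) hj (by omega) (by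
    have := R_pos π
    omega)
  row := fun x y hx hy hN => by
    obtain ⟨p, p', h1, h2, h3, h4, h5, h6, h7⟩ := h.row x y hx hy (by omega)
    exact ⟨p, p', h3, h1, h2, h4, h5, h6, h7⟩
  col := fun x y hx hy hN => by
    obtain ⟨p, p', h1, h2, h3, h4, h5, h6, h7⟩ := h.col x y hx hy (by omega)
    exact ⟨p, p', h3, h1, h2, h4, h5, h6, h7⟩

/-- the cell `(i, j)` of the net -/
theorem cell (h : Net H X Y E F κ π) {i j : ℤ} (hi : 0 ≤ i) (hj : 0 ≤ j)
    (hN : i + j + π.R + 5 ≤ π.M) :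
    Cell H X Y (ZN κ π) (gX X κ i) (gX X κ (i + 1)) (gY Y κ j) (gY Y κ (j + 1)) :=
  (cov h).cell hi hj (by omega)

/-- **C2**: a neighbour of a net vertex which is not in the frame or the net lies in one of the
four open cells around it -/
theorem nbr_F (h : Net H X Y E F κ π) {x y : ℕ} (hok : GN.ok π (.F x y))
    (hN : x + y + π.R + 5 ≤ π.M) {v : V} (hv : H.Adj (κ (.v (.F x y))) v) (hZ : v ∉ ZN κ π) :
    ∃ i j : ℤ, (i = x - 1 ∨ i = x) ∧ (j = y - 1 ∨ j = y) ∧ InC X Y κ i j v := by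
  obtain ⟨h1, h2⟩ := h.pos x y hok
  have hx : 1 ≤ x := hok.1
  have hy : 1 ≤ y := hok.2.1
  exact (cov h).star h.hd (by omega) (by omega) (by omega) h1 h2 hv hZ

/-- thread vertices do not belong to the frame or to the net -/
theorem T_notMem (hg : HasGrid H κ π) {k x y t : ℕ} (ht : GN.ok π (.T k x y t)) :
    κ (.v (.T k x y t)) ∉ ZN κ π := by
  rintro ⟨z, h1, h2, h3⟩
  have := hg.inj _ _ ht h1 h3
  subst this
  exact h2

theorem fx_lt {k : ℕ} (hk : π.Cl k) : 2 * π.fx k < π.R := by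
  have := Pool.Agent.Helper68.RAC1.two_vv_fst_lt (j := k) (D := π.D) (by have := hk.2; omega)
  unfold Par.fx Par.R
  simp only [Pool.Agent.Helper68.RAC1.vv, Pool.Agent.Helper68.RAC1.RR] at this
  exact_mod_cast this

theorem fy_lt {k : ℕ} (hk : π.Cl k) : 2 * π.fy k < π.R := by
  have := Pool.Agent.Helper68.RAC1.lt_two_vv_snd (j := k) (D := π.D)
    (by have := hk.1; have := hk.2; omega) (by have := hk.2; omega)
  unfold Par.fy Par.R
  simp only [Pool.Agent.Helper68.RAC1.vv, Pool.Agent.Helper68.RAC1.RR] at this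
  have h2 : (2 * (Nat.fib (2 * (π.D - k) + 1)) : ℤ) < (Nat.fib (2 * π.D + 2) : ℤ) := by linarith
  exact_mod_cast h2

/-- the point `p_m` of a thread is in the lattice -/
theorem inL_pp {k x y m : ℕ} (hs : π.St k x y) : InL π.D (π.pp k x y m) := by
  obtain ⟨hk, hL, -⟩ := hs
  have hv := Pool.Agent.Helper68.RAC1.par_dvd (D := π.D) (k := k) (by have := hk.2; omega)
  obtain ⟨u, hu⟩ := hv
  obtain ⟨w, hw⟩ := hL
  simp only at hw
  refine ⟨w + (Nat.fib (2 * π.D) : ℤ) + (m : ℤ) * (1 + (Nat.fib (2 * π.D) : ℤ)) - 2 * m * u, ?_⟩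
  simp only [Par.pp, Par.R, Par.fx, Par.fy]
  linear_combination hw - 2 * (m : ℤ) * hu

theorem start_ok {k x y : ℕ} (hs : π.St k x y) : GN.ok π (.F (x + 1) (y + 1)) := by
  obtain ⟨hk, hL, h1, h2, h3, h4⟩ := hs
  have hR := R_pos π
  have hG : 8 * π.R ≤ π.G := Nat.mul_le_mul_right _ (by omega)
  refine ⟨by omega, by omega, by omega, ?_⟩
  right
  left
  have : ((((x + 1 : ℕ) : ℤ)) - 1, (((y + 1 : ℕ) : ℤ)) - 1) = ((x : ℤ), (y : ℤ)) := by
    push_cast
    simp
  rw [this]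
  exact hL

/-- the first vertex of a thread -/
theorem start_cell (hg : HasGrid H κ π) (h : Net H X Y E F κ π) {k x y : ℕ} (hs : π.St k x y) :
    ∃ i j : ℤ, (i = x ∨ i = x + 1) ∧ (j = y ∨ j = y + 1) ∧
      InC X Y κ i j (κ (.v (.T k x y 0))) := by
  have hok := start_ok hs
  have hadj := hg.adj (.ts k x y) hs
  have hn := T_notMem hg (t := 0) ⟨hs, Nat.zero_le _⟩
  obtain ⟨-, -, h1, h2, h3, -⟩ := hs
  have hR := R_pos π
  have hG : 8 * π.R ≤ π.G := Nat.mul_le_mul_right _ (by omega)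
  obtain ⟨i, j, hi, hj, hij⟩ := nbr_F h hok (by omega) hadj hn
  refine ⟨i, j, ?_, ?_, hij⟩
  · push_cast at hi
    rcases hi with hi | hi
    · left; linarith
    · right; exact hi
  · push_cast at hj
    rcases hj with hj | hj
    · left; linarith
    · right; exact hj

/-- bounds for the points `p_m` -/
theorem pp_bounds {k x y m : ℕ} (hs : π.St k x y) (hm : m ≤ π.l) :
    8 * (π.R : ℤ) ≤ (π.pp k x y m).1 ∧ 3 * (π.R : ℤ) ≤ (π.pp k x y m).2 ∧
      (π.pp k x y m).1 + (π.pp k x y m).2 + 7 * π.R ≤ π.M ∧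
      (π.pp k x y m).1 ≤ x + m * π.R ∧ (y : ℤ) - (m + 1) * π.R ≤ (π.pp k x y m).2 := by
  have hR : (0 : ℤ) < π.R := by exact_mod_cast R_pos π
  obtain ⟨hk, -, h1, h2, h3, -⟩ := hs
  have f1 : (2 * π.fx k : ℤ) < π.R := by exact_mod_cast fx_lt hk
  have f2 : (2 * π.fy k : ℤ) < π.R := by exact_mod_cast fy_lt hk
  have f3 : (0 : ℤ) ≤ π.fx k := by positivity
  have f4 : (0 : ℤ) ≤ π.fy k := by positivity
  have g1 : ((4 * π.l + 8) * π.R : ℤ) ≤ x := by
    have : (π.G : ℤ) ≤ x := by exact_mod_cast h1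
    unfold Par.G at this
    push_cast at this
    linarith
  have g2 : ((4 * π.l + 8) * π.R : ℤ) ≤ y := by
    have : (π.G : ℤ) ≤ y := by exact_mod_cast h2
    unfold Par.G at this
    push_cast at this
    linarith
  have g3 : (x + y + (4 * π.l + 8) * π.R : ℤ) ≤ π.M := by
    have : ((x + y + π.G : ℕ) : ℤ) ≤ π.M := by exact_mod_cast h3
    unfold Par.G at this
    push_cast at this
    linarith
  have hm' : (m : ℤ) ≤ π.l := by exact_mod_cast hm
  have m0 : (0 : ℤ) ≤ m := by positivity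
  have l0 : (0 : ℤ) ≤ π.l := by positivity
  have a1 : (m : ℤ) * (π.R - 2 * π.fx k) ≤ m * π.R := mul_le_mul_of_nonneg_left (by linarith) m0
  have a2 : (0 : ℤ) ≤ (m : ℤ) * (π.R - 2 * π.fx k) := mul_nonneg m0 (by linarith)
  have a3 : (m : ℤ) * (π.R - 2 * π.fy k) ≤ m * π.R := mul_le_mul_of_nonneg_left (by linarith) m0
  have a4 : (0 : ℤ) ≤ (m : ℤ) * (π.R - 2 * π.fy k) := mul_nonneg m0 (by linarith)
  have a5 : (m : ℤ) * π.R ≤ π.l * π.R := mul_le_mul_of_nonneg_right hm' hR.le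
  have a6 : (0 : ℤ) ≤ π.l * π.R := mul_nonneg l0 hR.le
  simp only [Par.pp]
  refine ⟨by nlinarith, by nlinarith, by nlinarith, by linarith, by nlinarith⟩

/-- the last vertex of a thread -/
theorem end_cell (hg : HasGrid H κ π) (h : Net H X Y E F κ π) {k x y : ℕ} (hs : π.St k x y) :
    ∃ i j : ℤ, (i = (π.pp k x y π.l).1 ∨ i = (π.pp k x y π.l).1 - 1) ∧
      (j = (π.pp k x y π.l).2 ∨ j = (π.pp k x y π.l).2 - 1) ∧
      InC X Y κ i j (κ (.v (.T k x y (2 * π.l + 1)))) := by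
  have hR : (0 : ℤ) < π.R := by exact_mod_cast R_pos π
  obtain ⟨b1, b2, b3, -, -⟩ := pp_bounds hs le_rfl
  have e1 : (((π.pp k x y π.l).1.toNat : ℕ) : ℤ) = (π.pp k x y π.l).1 :=
    Int.toNat_of_nonneg (by linarith)
  have e2 : (((π.pp k x y π.l).2.toNat : ℕ) : ℤ) = (π.pp k x y π.l).2 :=
    Int.toNat_of_nonneg (by linarith)
  have hok : GN.ok π (.F (π.pp k x y π.l).1.toNat (π.pp k x y π.l).2.toNat) := by
    refine ⟨by omega, by omega, by omega, ?_⟩
    left
    rw [e1, e2]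
    exact inL_pp hs
  have hadj := hg.adj (.te k x y) hs
  obtain ⟨i, j, hi, hj, hij⟩ := nbr_F h hok (by omega) hadj.symm
    (T_notMem hg ⟨hs, le_rfl⟩)
  rw [e1] at hi
  rw [e2] at hj
  exact ⟨i, j, hi.symm, hj.symm, hij⟩

end Pool.Agent.Helper18.DG3
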